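import Mathlib

set_option autoImplicit false

namespace Pool.Agent.Results.MP_10302a_co.BothUnbounded

open Finset

/-- An augmented graph on the grid `[m] × [n]`: a set `E1` of cells, a set `E2` of 2-element sets of
cells and a set `E3` of 3-element sets of cells. -/
structure Aug (m n : ℕ) where
  E1 : Finset (Fin m × Fin n)
  E2 : Finset (Finset (Fin m × Fin n))
  E3 : Finset (Finset (Fin m × Fin n))
  card_two : ∀ e ∈ E2, e.card = 2
  card_three : ∀ e ∈ E3, e.card = 3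

/-- Condition 1: the set of cells `E` contains a rectangle. -/
def HasRect {m n : ℕ} (E : Finset (Fin m × Fin n)) : Prop :=
  ∃ i k : Fin m, ∃ j l : Fin n, i ≠ k ∧ j ≠ l ∧ (i, j) ∈ E ∧ (i, l) ∈ E ∧ (k, j) ∈ E ∧ (k, l) ∈ E

/-- `c` is occupied. -/
def Aug.Occ {m n : ℕ} (G : Aug m n) (c : Fin m × Fin n) : Prop :=
  c ∈ G.E1 ∨ ∃ e ∈ G.E2 ∪ G.E3, c ∈ e

/-- `c` lies in `E1` or in a 2-edge. -/
def Aug.Occ12 {m n : ℕ} (G : Aug m n) (c : Fin m × Fin n) : Prop :=
  c ∈ G.E1 ∨ ∃ e ∈ G.E2, c ∈ e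

/-- No cell lies in more than one edge. -/
def Aug.Simple {m n : ℕ} (G : Aug m n) : Prop :=
  (∀ e ∈ G.E2 ∪ G.E3, ∀ c ∈ e, c ∉ G.E1) ∧
  (∀ e ∈ G.E2 ∪ G.E3, ∀ f ∈ G.E2 ∪ G.E3, e ≠ f → ∀ c ∈ e, c ∉ f)

/-- Condition 2. -/
def Aug.Cond2 {m n : ℕ} (G : Aug m n) : Prop :=
  ∃ i k : Fin m, ∃ j l : Fin n, i ≠ k ∧ j ≠ l ∧
    ∃ e ∈ G.E2 ∪ G.E3, ∃ f ∈ G.E2 ∪ G.E3, e ≠ f ∧
      (e ∩ {(i, j), (i, l), (k, j), (k, l)}).card = 2 ∧
      (f ∩ {(i, j), (i, l), (k, j), (k, l)}).card = 2 ∧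
      ({(i, j), (i, l), (k, j), (k, l)} : Finset (Fin m × Fin n)) ⊆ e ∪ f

/-- Condition 3. -/
def Aug.Cond3 {m n : ℕ} (G : Aug m n) : Prop :=
  ∃ i p : Fin m, ∃ j q : Fin n, {(i, j), (p, q)} ∈ G.E2 ∧
    ∃ k : Fin m, ∃ l : Fin n, k ≠ i ∧ k ≠ p ∧ l ≠ j ∧ l ≠ q ∧
      G.Occ12 (k, j) ∧ G.Occ12 (k, l) ∧ G.Occ12 (k, q) ∧ G.Occ12 (i, l) ∧ G.Occ12 (p, l) ∧
      ((i ≠ p ∧ j ≠ q) → [(k, j), (k, l), (k, q), (i, l), (p, l)].Nodup)

/-- Condition 4. -/
def Aug.Cond4 {m n : ℕ} (G : Aug m n) : Prop :=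
  ∃ i p u : Fin m, ∃ j q v : Fin n, {(i, j), (p, q), (u, v)} ∈ G.E3 ∧
    ∃ k : Fin m, ∃ l : Fin n, k ≠ i ∧ k ≠ p ∧ k ≠ u ∧ l ≠ j ∧ l ≠ q ∧ l ≠ v ∧
      G.Occ (k, j) ∧ G.Occ (k, l) ∧ G.Occ (k, q) ∧ G.Occ (k, v) ∧
      G.Occ (i, l) ∧ G.Occ (p, l) ∧ G.Occ (u, l) ∧
      (([i, p, u].Nodup ∧ [j, q, v].Nodup) →
        [(k, j), (k, l), (k, q), (k, v), (i, l), (p, l), (u, l)].Nodup)

/-- `G` is generalized cycle-free. -/
def Aug.CycleFree {m n : ℕ} (G : Aug m n) : Prop :=
  ¬ HasRect G.E1 ∧ ¬ G.Cond2 ∧ ¬ G.Cond3 ∧ ¬ G.Cond4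

/-- The number of edges of `G`. -/
def Aug.size {m n : ℕ} (G : Aug m n) : ℕ := G.E1.card + G.E2.card + G.E3.card

/-- The Zarankiewicz number. -/
noncomputable def z (m n : ℕ) : ℕ :=
  sSup {t : ℕ | ∃ E : Finset (Fin m × Fin n), ¬ HasRect E ∧ E.card = t}

noncomputable def z3A (m n : ℕ) : ℕ :=
  sSup {t : ℕ | ∃ G : Aug m n, G.Simple ∧ G.CycleFree ∧ G.size = t}

noncomputable def z3L (m n : ℕ) : ℕ :=
  sSup {t : ℕ | ∃ G : Aug m n, G.Simple ∧ G.CycleFree ∧ G.E1.card = z m n ∧ G.size = t}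

lemma bddAug {m n : ℕ} (G : Aug m n) :
    G.size ≤ m * n + 2 ^ (m * n) + 2 ^ (m * n) := by
  unfold Aug.size
  have h1 : G.E1.card ≤ m * n := by
    calc G.E1.card ≤ (univ : Finset (Fin m × Fin n)).card := Finset.card_le_card (subset_univ _)
      _ = m * n := by simp
  have h2 : ∀ E : Finset (Finset (Fin m × Fin n)), E.card ≤ 2 ^ (m * n) := by
    intro E
    calc E.card ≤ (univ : Finset (Finset (Fin m × Fin n))).card := Finset.card_le_card (subset_univ _)
      _ = 2 ^ (m * n) := by simp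
  have := h2 G.E2
  have := h2 G.E3
  omega

lemma z3A_ge {m n : ℕ} (G : Aug m n) (h1 : G.Simple) (h2 : G.CycleFree) : G.size ≤ z3A m n := by
  apply le_csSup
  · refine ⟨m * n + 2 ^ (m * n) + 2 ^ (m * n), ?_⟩
    rintro t ⟨G, -, -, rfl⟩
    exact bddAug G
  · exact ⟨G, h1, h2, rfl⟩

lemma z3L_ge {m n : ℕ} (G : Aug m n) (h1 : G.Simple) (h2 : G.CycleFree) (h3 : G.E1.card = z m n) :
    G.size ≤ z3L m n := by
  apply le_csSup
  · refine ⟨m * n + 2 ^ (m * n) + 2 ^ (m * n), ?_⟩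
    rintro t ⟨G, -, -, -, rfl⟩
    exact bddAug G
  · exact ⟨G, h1, h2, h3, rfl⟩

/-! ### Q1: two blocks -/

/-- the 2-edge of the cell `c` of the first block -/
def bcell {m n : ℕ} (c : Fin (m / 2) × Fin (n / 2)) : Fin m × Fin n :=
  (⟨c.1.1, by have := c.1.2; omega⟩, ⟨c.2.1, by have := c.2.2; omega⟩)

def bpar {m n : ℕ} (c : Fin (m / 2) × Fin (n / 2)) : Fin m × Fin n :=
  (⟨c.1.1 + m / 2, by have := c.1.2; omega⟩, ⟨c.2.1 + n / 2, by have := c.2.2; omega⟩)

lemma bcell_inj {m n : ℕ} {c d : Fin (m / 2) × Fin (n / 2)} (h : bcell (m := m) (n := n) c = bcell d) :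
    c = d := by
  simp only [bcell, Prod.mk.injEq, Fin.mk.injEq] at h
  exact Prod.ext (Fin.ext h.1) (Fin.ext h.2)

lemma bpar_inj {m n : ℕ} {c d : Fin (m / 2) × Fin (n / 2)} (h : bpar (m := m) (n := n) c = bpar d) :
    c = d := by
  simp only [bpar, Prod.mk.injEq, Fin.mk.injEq] at h
  exact Prod.ext (Fin.ext (by omega)) (Fin.ext (by omega))

lemma bcell_ne {m n : ℕ} (c d : Fin (m / 2) × Fin (n / 2)) : bcell (m := m) (n := n) c ≠ bpar d := by
  have h1 := c.1.2
  simp only [bcell, bpar, ne_eq, Prod.mk.injEq, Fin.mk.injEq]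
  omega

/-- The two blocks. -/
def blk (m n : ℕ) : Aug m n where
  E1 := ∅
  E2 := (univ : Finset (Fin (m / 2) × Fin (n / 2))).image (fun c => {bcell c, bpar c})
  E3 := ∅
  card_two := by
    intro e he
    rw [Finset.mem_image] at he
    obtain ⟨c, -, rfl⟩ := he
    exact Finset.card_pair (bcell_ne c c)
  card_three := by simp

lemma blk_card (m n : ℕ) : (blk m n).size = (m / 2) * (n / 2) := by
  have h : (blk m n).E2.card = (m / 2) * (n / 2) := by
    unfold blk
    rw [Finset.card_image_of_injective]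
    · simp
    · intro c d h
      have h1 : bcell (m := m) (n := n) c ∈ ({bcell d, bpar d} : Finset (Fin m × Fin n)) := by
        rw [← (show ({bcell c, bpar c} : Finset (Fin m × Fin n)) = {bcell d, bpar d} from h)]
        simp
      rw [mem_insert, mem_singleton] at h1
      rcases h1 with h1 | h1
      · exact bcell_inj h1
      · exact absurd h1 (bcell_ne c d)
  unfold Aug.size
  rw [h]
  simp [blk]

lemma blk_in {m n : ℕ} {c : Fin m × Fin n} {e : Finset (Fin m × Fin n)} (he : e ∈ (blk m n).E2)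
    (h : c ∈ e) :
    (c.1.1 < m / 2 ∧ c.2.1 < n / 2) ∨ (m / 2 ≤ c.1.1 ∧ n / 2 ≤ c.2.1) := by
  simp only [blk, Finset.mem_image, mem_univ, true_and] at he
  obtain ⟨⟨a, b⟩, rfl⟩ := he
  have ha := a.2; have hb := b.2
  rw [mem_insert, mem_singleton] at h
  rcases h with rfl | rfl
  · left; exact ⟨ha, hb⟩
  · right; exact ⟨by simp [bpar], by simp [bpar]⟩

lemma blk_pair {m n : ℕ} {i p : Fin m} {j q : Fin n}
    (h : ({(i, j), (p, q)} : Finset (Fin m × Fin n)) ∈ (blk m n).E2) :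
    (i.1 < m / 2 ∧ j.1 < n / 2 ∧ m / 2 ≤ p.1 ∧ n / 2 ≤ q.1) ∨
    (p.1 < m / 2 ∧ q.1 < n / 2 ∧ m / 2 ≤ i.1 ∧ n / 2 ≤ j.1) := by
  have h' := h
  simp only [blk, Finset.mem_image, mem_univ, true_and] at h
  obtain ⟨c, hc⟩ := h
  have h1 : bcell c ∈ ({(i, j), (p, q)} : Finset (Fin m × Fin n)) := by rw [← hc]; simp
  have h2 : bpar c ∈ ({(i, j), (p, q)} : Finset (Fin m × Fin n)) := by rw [← hc]; simp
  have hne : (bcell c : Fin m × Fin n) ≠ bpar c := bcell_ne c c
  have ha := c.1.2; have hb := c.2.2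
  rw [mem_insert, mem_singleton] at h1 h2
  have e1 : ((bcell c : Fin m × Fin n)).1.1 = c.1.1 := rfl
  have e2 : ((bcell c : Fin m × Fin n)).2.1 = c.2.1 := rfl
  have e3 : ((bpar c : Fin m × Fin n)).1.1 = c.1.1 + m / 2 := rfl
  have e4 : ((bpar c : Fin m × Fin n)).2.1 = c.2.1 + n / 2 := rfl
  rcases h1 with h1 | h1 <;> rcases h2 with h2 | h2
  · exact absurd (h1.trans h2.symm) hne
  · left
    rw [h1] at e1 e2
    rw [h2] at e3 e4
    simp only at e1 e2 e3 e4
    omega
  · right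
    rw [h1] at e1 e2
    rw [h2] at e3 e4
    simp only at e1 e2 e3 e4
    omega
  · exact absurd (h1.trans h2.symm) hne

lemma blk_simple (m n : ℕ) : (blk m n).Simple := by
  constructor
  · intro e he c hc
    simp [blk]
  · intro e he f hf hef c hce hcf
    apply hef
    have hE3 : (blk m n).E3 = ∅ := rfl
    rw [hE3, Finset.union_empty] at he hf
    simp only [blk, Finset.mem_image, mem_univ, true_and] at he hf
    obtain ⟨x, rfl⟩ := he
    obtain ⟨y, rfl⟩ := hf
    rw [mem_insert, mem_singleton] at hce hcf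
    have hxy : x = y := by
      rcases hce with h1 | h1 <;> rcases hcf with h2 | h2
      · exact bcell_inj (h1.symm.trans h2)
      · exact absurd (h1.symm.trans h2) (bcell_ne x y)
      · exact absurd (h2.symm.trans h1) (bcell_ne y x)
      · exact bpar_inj (h1.symm.trans h2)
    rw [hxy]

lemma blk_free (m n : ℕ) : (blk m n).CycleFree := by
  have hE3 : (blk m n).E3 = ∅ := rfl
  refine ⟨?_, ?_, ?_, ?_⟩
  · rintro ⟨i, k, j, l, _, _, h, _⟩
    simp [blk] at h
  · rintro ⟨i, k, j, l, hik, hjl, e, he, f, hf, hef, ce, cf, hsub⟩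
    rw [hE3, Finset.union_empty] at he hf
    have hocc : ∀ c ∈ ({(i, j), (i, l), (k, j), (k, l)} : Finset (Fin m × Fin n)),
        (c.1.1 < m / 2 ∧ c.2.1 < n / 2) ∨ (m / 2 ≤ c.1.1 ∧ n / 2 ≤ c.2.1) := by
      intro c hc
      have := hsub hc
      rw [mem_union] at this
      rcases this with h | h
      · exact blk_in he h
      · exact blk_in hf h
    have o1 := hocc (i, j) (by simp)
    have o2 := hocc (i, l) (by simp)
    have o3 := hocc (k, j) (by simp)
    have o4 := hocc (k, l) (by simp)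
    simp only at o1 o2 o3 o4
    -- all rows are on the same side, but an edge has a cell on each side
    have hside : (i.1 < m / 2 ∧ k.1 < m / 2) ∨ (m / 2 ≤ i.1 ∧ m / 2 ≤ k.1) := by omega
    have hsub2 : e ⊆ {(i, j), (i, l), (k, j), (k, l)} := by
      have h1 : (e ∩ {(i, j), (i, l), (k, j), (k, l)}) = e := by
        apply Finset.eq_of_subset_of_card_le Finset.inter_subset_left
        rw [ce, (blk m n).card_two e he]
      rw [← h1]
      exact Finset.inter_subset_right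
    simp only [blk, Finset.mem_image, mem_univ, true_and] at he
    obtain ⟨x, rfl⟩ := he
    have m1 := hsub2 (show bcell x ∈ ({bcell x, bpar x} : Finset (Fin m × Fin n)) by simp)
    have m2 := hsub2 (show bpar x ∈ ({bcell x, bpar x} : Finset (Fin m × Fin n)) by simp)
    have r1 : ((bcell x : Fin m × Fin n)).1 = i ∨ ((bcell x : Fin m × Fin n)).1 = k := by
      simp only [mem_insert, mem_singleton] at m1
      rcases m1 with h | h | h | h <;> rw [h] <;> simp
    have r2 : ((bpar x : Fin m × Fin n)).1 = i ∨ ((bpar x : Fin m × Fin n)).1 = k := by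
      simp only [mem_insert, mem_singleton] at m2
      rcases m2 with h | h | h | h <;> rw [h] <;> simp
    have e1 : ((bcell x : Fin m × Fin n)).1.1 = x.1.1 := rfl
    have e3 : ((bpar x : Fin m × Fin n)).1.1 = x.1.1 + m / 2 := rfl
    have hx := x.1.2
    rcases r1 with r1 | r1 <;> rcases r2 with r2 | r2 <;> rw [r1] at e1 <;> rw [r2] at e3 <;> omega
  · rintro ⟨i, p, j, q, h, k, l, _, _, _, _, h1, _, h2, _⟩
    have h3 := blk_pair h
    have hocc : ∀ c, (blk m n).Occ12 c →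
        (c.1.1 < m / 2 ∧ c.2.1 < n / 2) ∨ (m / 2 ≤ c.1.1 ∧ n / 2 ≤ c.2.1) := by
      rintro c (hc | ⟨e, he, hc⟩)
      · simp [blk] at hc
      · exact blk_in he hc
    have o1 := hocc _ h1
    have o2 := hocc _ h2
    simp only at o1 o2
    omega
  · rintro ⟨i, p, u, j, q, v, h, _⟩
    rw [hE3] at h
    simp at h

/-! ### Q2: columns are the pairs of rows -/

/-- Columns of the incidence configuration. -/
noncomputable def colE (h : ℕ) :
    Fin ((2 * h).choose 2) ≃ {s : Finset (Fin (2 * h)) // s.card = 2} :=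
  (Fintype.equivFinOfCardEq (by simp)).symm

/-- rotation of the rows by `h` -/
def sh (h : ℕ) : Fin (2 * h) ≃ Fin (2 * h) where
  toFun i := ⟨(i.1 + h) % (2 * h), Nat.mod_lt _ (by have := i.2; omega)⟩
  invFun i := ⟨(i.1 + h) % (2 * h), Nat.mod_lt _ (by have := i.2; omega)⟩
  left_inv := by
    intro i
    apply Fin.ext
    have := i.2
    simp only [Nat.mod_add_mod]
    rw [show i.1 + h + h = i.1 + 2 * h by ring, Nat.add_mod_right, Nat.mod_eq_of_lt this]
  right_inv := by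
    intro i
    apply Fin.ext
    have := i.2
    simp only [Nat.mod_add_mod]
    rw [show i.1 + h + h = i.1 + 2 * h by ring, Nat.add_mod_right, Nat.mod_eq_of_lt this]

def U (h : ℕ) : Finset (Fin (2 * h)) := univ.filter (fun i => i.1 < h)

lemma mem_U {h : ℕ} {i : Fin (2 * h)} : i ∈ U h ↔ i.1 < h := by simp [U]

lemma sh_U {h : ℕ} {i : Fin (2 * h)} (hi : i ∈ U h) : sh h i ∉ U h := by
  rw [mem_U] at hi ⊢
  change ¬ ((i.1 + h) % (2 * h) < h)
  rw [Nat.mod_eq_of_lt (by omega)]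
  omega

lemma card_U (h : ℕ) : (U h).card = h := by
  have : U h = (univ : Finset (Fin h)).map (Fin.castLEEmb (by omega : h ≤ 2 * h)) := by
    ext i
    rw [mem_U, Finset.mem_map]
    constructor
    · intro hi
      exact ⟨⟨i.1, hi⟩, mem_univ _, Fin.ext rfl⟩
    · rintro ⟨j, -, rfl⟩
      exact j.2
  rw [this]
  simp

/-- rotation of the columns -/
def shS (h : ℕ) (s : {s : Finset (Fin (2 * h)) // s.card = 2}) :
    {s : Finset (Fin (2 * h)) // s.card = 2} :=
  ⟨s.1.map (sh h).toEmbedding, by rw [Finset.card_map]; exact s.2⟩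

lemma shS_inj {h : ℕ} : Function.Injective (shS h) := by
  intro s t hst
  have : s.1.map (sh h).toEmbedding = t.1.map (sh h).toEmbedding := congrArg Subtype.val hst
  exact Subtype.ext (Finset.map_injective _ this)

/-- the partner of a cell -/
noncomputable def par {h : ℕ} (c : Fin (2 * h) × Fin ((2 * h).choose 2)) :
    Fin (2 * h) × Fin ((2 * h).choose 2) :=
  (sh h c.1, (colE h).symm (shS h (colE h c.2)))

lemma par_inj {h : ℕ} {c d : Fin (2 * h) × Fin ((2 * h).choose 2)} (hcd : par c = par d) : c = d := by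
  simp only [par, Prod.mk.injEq, EmbeddingLike.apply_eq_iff_eq] at hcd
  have h2 := shS_inj hcd.2
  simp only [EmbeddingLike.apply_eq_iff_eq] at h2
  exact Prod.ext hcd.1 h2

/-- the cells of the upper block -/
noncomputable def W (h : ℕ) : Finset (Fin (2 * h) × Fin ((2 * h).choose 2)) :=
  univ.filter (fun c => c.1 ∈ U h ∧ (colE h c.2).1 ⊆ U h ∧ c.1 ∉ (colE h c.2).1)

lemma mem_W {h : ℕ} {c : Fin (2 * h) × Fin ((2 * h).choose 2)} :
    c ∈ W h ↔ c.1 ∈ U h ∧ (colE h c.2).1 ⊆ U h ∧ c.1 ∉ (colE h c.2).1 := by simp [W]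

lemma par_facts {h : ℕ} {c : Fin (2 * h) × Fin ((2 * h).choose 2)} (hc : c ∈ W h) :
    (par c).1 ∉ U h ∧ (∀ x ∈ (colE h (par c).2).1, x ∉ U h) ∧ (par c).1 ∉ (colE h (par c).2).1 := by
  rw [mem_W] at hc
  obtain ⟨h1, h2, h3⟩ := hc
  have hcol : (colE h (par c).2).1 = (colE h c.2).1.map (sh h).toEmbedding := by
    simp [par, shS]
  refine ⟨sh_U h1, ?_, ?_⟩
  · intro x hx
    rw [hcol, Finset.mem_map] at hx
    obtain ⟨y, hy, rfl⟩ := hx
    exact sh_U (h2 hy)
  · rw [hcol, Finset.mem_map]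
    rintro ⟨y, hy, hy2⟩
    have : y = c.1 := (sh h).injective hy2
    rw [this] at hy
    exact h3 hy

lemma W_ne_par {h : ℕ} {c d : Fin (2 * h) × Fin ((2 * h).choose 2)} (hc : c ∈ W h) (hd : d ∈ W h) :
    c ≠ par d := by
  rintro rfl
  exact (par_facts hd).1 (mem_W.mp hc).1

lemma card_W (h : ℕ) : (W h).card = h.choose 2 * (h - 2) := by
  have hinj : Function.Injective (fun c : Fin (2 * h) × Fin ((2 * h).choose 2) =>
      (⟨(colE h c.2).1, c.1⟩ : Σ _ : Finset (Fin (2 * h)), Fin (2 * h))) := by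
    intro c d hcd
    simp only [Sigma.mk.injEq, heq_eq_eq] at hcd
    have h2 : colE h c.2 = colE h d.2 := Subtype.ext hcd.1
    exact Prod.ext hcd.2 ((colE h).injective h2)
  have himg : (W h).image (fun c => (⟨(colE h c.2).1, c.1⟩ : Σ _ : Finset (Fin (2 * h)), Fin (2 * h)))
      = (powersetCard 2 (U h)).sigma (fun s => U h \ s) := by
    ext ⟨s, i⟩
    rw [Finset.mem_image, Finset.mem_sigma, mem_powersetCard, mem_sdiff]
    constructor
    · rintro ⟨c, hc, heq⟩
      simp only [Sigma.mk.injEq, heq_eq_eq] at heq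
      obtain ⟨h1, h2⟩ := heq
      subst h2
      subst h1
      rw [mem_W] at hc
      exact ⟨⟨hc.2.1, (colE h c.2).2⟩, hc.1, hc.2.2⟩
    · rintro ⟨⟨h1, h2⟩, h3, h4⟩
      refine ⟨(i, (colE h).symm ⟨s, h2⟩), ?_, by simp⟩
      rw [mem_W]
      simp only [Equiv.apply_symm_apply]
      exact ⟨h3, h1, h4⟩
  rw [← Finset.card_image_of_injective _ hinj, himg, Finset.card_sigma]
  rw [Finset.sum_congr rfl (g := fun _ => h - 2), Finset.sum_const, card_powersetCard, card_U,
    smul_eq_mul]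
  intro s hs
  rw [mem_powersetCard] at hs
  rw [Finset.card_sdiff_of_subset hs.1, card_U, hs.2]

/-- the configuration for Q2 -/
noncomputable def inc (h : ℕ) : Aug (2 * h) ((2 * h).choose 2) where
  E1 := univ.filter (fun c => c.1 ∈ (colE h c.2).1)
  E2 := (W h).image (fun c => {c, par c})
  E3 := ∅
  card_two := by
    intro e he
    rw [Finset.mem_image] at he
    obtain ⟨c, hc, rfl⟩ := he
    exact Finset.card_pair (W_ne_par hc hc)
  card_three := by simp

lemma inc_E1 {h : ℕ} {c : Fin (2 * h) × Fin ((2 * h).choose 2)} :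
    c ∈ (inc h).E1 ↔ c.1 ∈ (colE h c.2).1 := by simp [inc]

lemma inc_E1_card (h : ℕ) : (inc h).E1.card = 2 * (2 * h).choose 2 := by
  unfold inc
  rw [Finset.card_filter, Fintype.sum_prod_type_right]
  have : ∀ j : Fin ((2 * h).choose 2), (∑ i : Fin (2 * h), if i ∈ (colE h j).1 then 1 else 0) = 2 := by
    intro j
    rw [Finset.sum_boole, Nat.cast_id, Finset.filter_mem_eq_inter, Finset.univ_inter, (colE h j).2]
  simp only [this, Finset.sum_const, card_univ, Fintype.card_fin, smul_eq_mul]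
  ring

lemma inc_E2_card (h : ℕ) : (inc h).E2.card = h.choose 2 * (h - 2) := by
  rw [← card_W]
  unfold inc
  rw [Finset.card_image_of_injOn]
  intro c hc d hd hcd
  rw [mem_coe] at hc hd
  have h1 : c ∈ ({d, par d} : Finset _) := by
    rw [← (show ({c, par c} : Finset _) = {d, par d} from hcd)]
    simp
  rw [mem_insert, mem_singleton] at h1
  rcases h1 with h1 | h1
  · exact h1
  · exact absurd h1 (W_ne_par hc hd)

lemma inc_size (h : ℕ) : (inc h).size = 2 * (2 * h).choose 2 + h.choose 2 * (h - 2) := by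
  unfold Aug.size
  rw [inc_E1_card, inc_E2_card]
  simp [inc]

lemma inc_simple (h : ℕ) : (inc h).Simple := by
  have hE3 : (inc h).E3 = ∅ := rfl
  constructor
  · intro e he c hc
    rw [hE3, Finset.union_empty] at he
    rw [inc_E1]
    simp only [inc, Finset.mem_image] at he
    obtain ⟨x, hx, rfl⟩ := he
    rw [mem_insert, mem_singleton] at hc
    rcases hc with rfl | rfl
    · exact (mem_W.mp hx).2.2
    · exact (par_facts hx).2.2
  · intro e he f hf hef c hce hcf
    apply hef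
    rw [hE3, Finset.union_empty] at he hf
    simp only [inc, Finset.mem_image] at he hf
    obtain ⟨x, hx, rfl⟩ := he
    obtain ⟨y, hy, rfl⟩ := hf
    rw [mem_insert, mem_singleton] at hce hcf
    have hxy : x = y := by
      rcases hce with h1 | h1 <;> rcases hcf with h2 | h2
      · exact h1.symm.trans h2
      · exact absurd (h1.symm.trans h2) (W_ne_par hx hy)
      · exact absurd (h2.symm.trans h1) (W_ne_par hy hx)
      · exact par_inj (h1.symm.trans h2)
    rw [hxy]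

/-- a cell of a 2-edge in a column inside `U` has its row in `U`; and in general the row and the
column of a cell of a 2-edge are on the same side. -/
lemma inc_side {h : ℕ} {c : Fin (2 * h) × Fin ((2 * h).choose 2)}
    {e : Finset (Fin (2 * h) × Fin ((2 * h).choose 2))} (he : e ∈ (inc h).E2) (hc : c ∈ e) :
    (c.1 ∈ U h ∧ ∀ x ∈ (colE h c.2).1, x ∈ U h) ∨ (c.1 ∉ U h ∧ ∀ x ∈ (colE h c.2).1, x ∉ U h) := by
  simp only [inc, Finset.mem_image] at he
  obtain ⟨x, hx, rfl⟩ := he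
  rw [mem_insert, mem_singleton] at hc
  rcases hc with rfl | rfl
  · left
    have := mem_W.mp hx
    exact ⟨this.1, fun y hy => this.2.1 hy⟩
  · right
    have := par_facts hx
    exact ⟨this.1, this.2.1⟩

lemma col_nonempty {h : ℕ} (j : Fin ((2 * h).choose 2)) : ∃ x, x ∈ (colE h j).1 := by
  have := (colE h j).2
  exact Finset.card_pos.mp (by omega)

lemma inc_pair {h : ℕ} {i p : Fin (2 * h)} {j q : Fin ((2 * h).choose 2)}
    (hm : ({(i, j), (p, q)} : Finset (Fin (2 * h) × Fin ((2 * h).choose 2))) ∈ (inc h).E2) :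
    ((∀ x ∈ (colE h j).1, x ∈ U h) ∧ (∀ x ∈ (colE h q).1, x ∉ U h)) ∨
    ((∀ x ∈ (colE h q).1, x ∈ U h) ∧ (∀ x ∈ (colE h j).1, x ∉ U h)) := by
  simp only [inc, Finset.mem_image] at hm
  obtain ⟨c, hc, heq⟩ := hm
  have h1 : c ∈ ({(i, j), (p, q)} : Finset _) := by rw [← heq]; simp
  have h2 : par c ∈ ({(i, j), (p, q)} : Finset _) := by rw [← heq]; simp
  have hne := W_ne_par hc hc
  have f1 := (mem_W.mp hc).2.1
  have f2 := (par_facts hc).2.1
  rw [mem_insert, mem_singleton] at h1 h2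
  rcases h1 with h1 | h1 <;> rcases h2 with h2 | h2
  · exact absurd (h1.trans h2.symm) hne
  · left
    rw [h2] at f2
    rw [h1] at f1
    exact ⟨fun x hx => f1 hx, f2⟩
  · right
    rw [h2] at f2
    rw [h1] at f1
    exact ⟨fun x hx => f1 hx, f2⟩
  · exact absurd (h1.trans h2.symm) hne

lemma inc_free (h : ℕ) : (inc h).CycleFree := by
  have hE3 : (inc h).E3 = ∅ := rfl
  refine ⟨?_, ?_, ?_, ?_⟩
  · rintro ⟨i, k, j, l, hik, hjl, h1, h2, h3, h4⟩
    rw [inc_E1] at h1 h2 h3 h4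
    simp only at h1 h2 h3 h4
    have e : ∀ j : Fin ((2 * h).choose 2), i ∈ (colE h j).1 → k ∈ (colE h j).1 →
        ({i, k} : Finset (Fin (2 * h))) = (colE h j).1 := by
      intro j hi hk
      apply Finset.eq_of_subset_of_card_le
      · intro x hx
        rw [mem_insert, mem_singleton] at hx
        rcases hx with rfl | rfl
        · exact hi
        · exact hk
      · rw [(colE h j).2, Finset.card_pair hik]
    have := (e j h1 h3).symm.trans (e l h2 h4)
    exact hjl ((colE h).injective (Subtype.ext this))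
  · rintro ⟨i, k, j, l, hik, hjl, e, he, f, hf, hef, ce, cf, hsub⟩
    rw [hE3, Finset.union_empty] at he hf
    have hocc : ∀ c ∈ ({(i, j), (i, l), (k, j), (k, l)} : Finset (Fin (2 * h) × Fin ((2 * h).choose 2))),
        (c.1 ∈ U h ∧ ∀ x ∈ (colE h c.2).1, x ∈ U h) ∨
        (c.1 ∉ U h ∧ ∀ x ∈ (colE h c.2).1, x ∉ U h) := by
      intro c hc
      have := hsub hc
      rw [mem_union] at this
      rcases this with h | h
      · exact inc_side he h
      · exact inc_side hf h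
    have o1 := hocc (i, j) (by simp)
    have o3 := hocc (k, j) (by simp)
    simp only at o1 o3
    obtain ⟨x, hx⟩ := col_nonempty j
    have hside : (i ∈ U h ↔ k ∈ U h) := by
      rcases o1 with ⟨a, b⟩ | ⟨a, b⟩ <;> rcases o3 with ⟨c, d⟩ | ⟨c, d⟩
      · exact ⟨fun _ => c, fun _ => a⟩
      · exact absurd (b x hx) (d x hx)
      · exact absurd (d x hx) (b x hx)
      · exact ⟨fun h => absurd h a, fun h => absurd h c⟩
    have hsub2 : e ⊆ {(i, j), (i, l), (k, j), (k, l)} := by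
      have h1 : (e ∩ {(i, j), (i, l), (k, j), (k, l)}) = e := by
        apply Finset.eq_of_subset_of_card_le Finset.inter_subset_left
        rw [ce, (inc h).card_two e he]
      rw [← h1]
      exact Finset.inter_subset_right
    simp only [inc, Finset.mem_image] at he
    obtain ⟨y, hy, rfl⟩ := he
    have m1 := hsub2 (show y ∈ ({y, par y} : Finset _) by simp)
    have m2 := hsub2 (show par y ∈ ({y, par y} : Finset _) by simp)
    have r1 : y.1 = i ∨ y.1 = k := by
      simp only [mem_insert, mem_singleton] at m1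
      rcases m1 with h | h | h | h <;> rw [h] <;> simp
    have r2 : (par y).1 = i ∨ (par y).1 = k := by
      simp only [mem_insert, mem_singleton] at m2
      rcases m2 with h | h | h | h <;> rw [h] <;> simp
    have g1 := (mem_W.mp hy).1
    have g2 := (par_facts hy).1
    rcases r1 with r1 | r1 <;> rcases r2 with r2 | r2 <;> rw [r1] at g1 <;> rw [r2] at g2 <;> tauto
  · rintro ⟨i, p, j, q, hm, k, l, _, _, _, _, h1, _, h2, _⟩
    have hocc : ∀ c, (inc h).Occ12 c →
        ((∀ x ∈ (colE h c.2).1, x ∈ U h) → c.1 ∈ U h) ∧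
        ((∀ x ∈ (colE h c.2).1, x ∉ U h) → c.1 ∉ U h) := by
      rintro c (hc | ⟨e, he, hc⟩)
      · rw [inc_E1] at hc
        exact ⟨fun hh => hh _ hc, fun hh => hh _ hc⟩
      · obtain ⟨x, hx⟩ := col_nonempty c.2
        rcases inc_side he hc with ⟨a, b⟩ | ⟨a, b⟩
        · exact ⟨fun _ => a, fun hh => absurd (b x hx) (hh x hx)⟩
        · exact ⟨fun hh => absurd (hh x hx) (b x hx), fun _ => a⟩
    have o1 := hocc _ h1
    have o2 := hocc _ h2
    rcases inc_pair hm with ⟨a, b⟩ | ⟨a, b⟩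
    · exact o2.2 b (o1.1 a)
    · exact o1.2 b (o2.1 a)
  · rintro ⟨i, p, u, j, q, v, h, _⟩
    rw [hE3] at h
    simp at h

/-! ### The Zarankiewicz number `z(m, n) ≤ n + C(m,2)` -/

lemma rect_bound {m n : ℕ} (E : Finset (Fin m × Fin n)) (hE : ¬ HasRect E) :
    E.card ≤ n + m.choose 2 := by
  classical
  let S : Fin n → Finset (Fin m) := fun j => univ.filter (fun i => (i, j) ∈ E)
  have h1 : E.card = ∑ j : Fin n, (S j).card := by
    have : E = univ.filter (fun c => c ∈ E) := by ext; simp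
    conv_lhs => rw [this]
    rw [Finset.card_filter, Fintype.sum_prod_type_right]
    apply Finset.sum_congr rfl
    intro j _
    rw [Finset.sum_boole, Nat.cast_id]
  have h2 : ∑ j : Fin n, (S j).card.choose 2 ≤ m.choose 2 := by
    have : ∑ j : Fin n, (S j).card.choose 2 =
        ((univ : Finset (Fin n)).biUnion (fun j => powersetCard 2 (S j))).card := by
      rw [Finset.card_biUnion]
      · apply Finset.sum_congr rfl
        intro j _
        rw [card_powersetCard]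
      · intro j _ l _ hjl
        rw [Function.onFun, Finset.disjoint_left]
        intro s hs ht
        rw [mem_powersetCard] at hs ht
        obtain ⟨a, b, hab, rfl⟩ := Finset.card_eq_two.mp hs.2
        apply hE
        refine ⟨a, b, j, l, hab, hjl, ?_, ?_, ?_, ?_⟩
        · have := hs.1 (show a ∈ ({a, b} : Finset _) by simp); simpa [S] using this
        · have := ht.1 (show a ∈ ({a, b} : Finset _) by simp); simpa [S] using this
        · have := hs.1 (show b ∈ ({a, b} : Finset _) by simp); simpa [S] using this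
        · have := ht.1 (show b ∈ ({a, b} : Finset _) by simp); simpa [S] using this
    rw [this]
    calc _ ≤ (powersetCard 2 (univ : Finset (Fin m))).card := by
          apply Finset.card_le_card
          intro s hs
          rw [Finset.mem_biUnion] at hs
          obtain ⟨j, -, hs⟩ := hs
          rw [mem_powersetCard] at hs ⊢
          exact ⟨subset_univ _, hs.2⟩
      _ = m.choose 2 := by rw [card_powersetCard]; simp
  have h3 : ∀ d : ℕ, d ≤ 1 + d.choose 2 := by
    intro d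
    induction d with
    | zero => simp
    | succ d ih =>
      have h4 : (d + 1).choose 2 = d.choose 1 + d.choose 2 := Nat.choose_succ_succ' d 1
      rw [h4, Nat.choose_one_right]
      rcases Nat.eq_zero_or_pos d with h0 | h0
      · subst h0; simp
      · omega
  rw [h1]
  calc ∑ j : Fin n, (S j).card ≤ ∑ j : Fin n, (1 + (S j).card.choose 2) :=
        Finset.sum_le_sum (fun j _ => h3 _)
    _ = n + ∑ j : Fin n, (S j).card.choose 2 := by rw [Finset.sum_add_distrib]; simp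
    _ ≤ _ := by omega

lemma z_eq (h : ℕ) : (inc h).E1.card = z (2 * h) ((2 * h).choose 2) := by
  apply le_antisymm
  · apply le_csSup
    · refine ⟨(2 * h).choose 2 + (2 * h).choose 2, ?_⟩
      rintro t ⟨E, hE, rfl⟩
      exact rect_bound E hE
    · exact ⟨(inc h).E1, (inc_free h).1, rfl⟩
  · apply csSup_le
    · exact ⟨_, (inc h).E1, (inc_free h).1, rfl⟩
    · rintro t ⟨E, hE, rfl⟩
      rw [inc_E1_card]
      have := rect_bound E hE
      omega

/-- `z_{3A}(m,n) ≥ ⌊m/2⌋⌊n/2⌋` for all `m, n`; `z_{3L}(2h, C(2h,2)) ≥ 2C(2h,2) + C(h,2)(h-2)` for all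
`h`; consequently neither `z_{3A}` nor `z_{3L}` satisfies a bound `C (m n^{1/2} + n)`. -/
theorem result :
    (∀ m n : ℕ, (m / 2) * (n / 2) ≤ z3A m n) ∧
    (∀ h : ℕ, 2 * (2 * h).choose 2 + h.choose 2 * (h - 2) ≤ z3L (2 * h) ((2 * h).choose 2)) ∧
    (¬ ∃ C : ℝ, ∀ m n : ℕ, 2 ≤ m → 2 ≤ n → (z3A m n : ℝ) ≤ C * (m * (n : ℝ) ^ (1 / 2 : ℝ) + n)) ∧
    (¬ ∃ C : ℝ, ∀ m n : ℕ, 2 ≤ m → 2 ≤ n → (z3L m n : ℝ) ≤ C * (m * (n : ℝ) ^ (1 / 2 : ℝ) + n)) := by
  have key1 : ∀ m n : ℕ, (m / 2) * (n / 2) ≤ z3A m n := by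
    intro m n
    rw [← blk_card]
    exact z3A_ge _ (blk_simple m n) (blk_free m n)
  have key2 : ∀ h : ℕ, 2 * (2 * h).choose 2 + h.choose 2 * (h - 2) ≤ z3L (2 * h) ((2 * h).choose 2) := by
    intro h
    rw [← inc_size]
    exact z3L_ge _ (inc_simple h) (inc_free h) (z_eq h)
  refine ⟨key1, key2, ?_, ?_⟩
  · rintro ⟨C, hC⟩
    obtain ⟨t, ht⟩ := exists_nat_gt (|C| * 4 + 1)
    have ht1 : 1 ≤ t := by
      have : (0 : ℝ) ≤ |C| := abs_nonneg C
      have h : (1 : ℝ) < t := by linarith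
      exact_mod_cast h.le
    have h1 := hC ((2 * t) ^ 2) ((2 * t) ^ 2) (by nlinarith) (by nlinarith)
    have h2 := key1 ((2 * t) ^ 2) ((2 * t) ^ 2)
    have h3 : (2 * t) ^ 2 / 2 = 2 * t ^ 2 := by
      rw [show (2 * t) ^ 2 = 2 * (2 * t ^ 2) by ring, Nat.mul_div_cancel_left _ (by norm_num)]
    rw [h3] at h2
    have h4 : (((2 * t ^ 2) * (2 * t ^ 2) : ℕ) : ℝ) ≤ z3A ((2 * t) ^ 2) ((2 * t) ^ 2) := by
      exact_mod_cast h2
    have h5 : ((((2 * t) ^ 2 : ℕ) : ℝ)) ^ (1 / 2 : ℝ) = 2 * t := by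
      rw [← Real.sqrt_eq_rpow]
      push_cast
      rw [Real.sqrt_sq (by positivity)]
    rw [h5] at h1
    have h6 := h4.trans h1
    push_cast at h6
    have ht0 : (1 : ℝ) ≤ t := by exact_mod_cast ht1
    have h7 : C * ((2 * (t : ℝ)) ^ 2 * (2 * t) + (2 * t) ^ 2) ≤
        |C| * ((2 * (t : ℝ)) ^ 2 * (2 * t) + (2 * t) ^ 2) := by
      apply mul_le_mul_of_nonneg_right (le_abs_self C) (by positivity)
    have h8 : |C| * ((2 * (t : ℝ)) ^ 2 * (2 * t) + (2 * t) ^ 2) ≤ |C| * (12 * t ^ 3) := by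
      apply mul_le_mul_of_nonneg_left _ (abs_nonneg C)
      nlinarith [pow_pos (by linarith : (0:ℝ) < t) 2, pow_pos (by linarith : (0:ℝ) < t) 3]
    have h9 : 4 * (t : ℝ) ^ 4 ≤ |C| * (12 * t ^ 3) := by
      calc 4 * (t : ℝ) ^ 4 = 2 * t ^ 2 * (2 * t ^ 2) := by ring
        _ ≤ _ := h6.trans (h7.trans h8)
    have h10 : (t : ℝ) ^ 3 * (4 * t) ≤ t ^ 3 * (12 * |C|) := by linarith
    have h11 := le_of_mul_le_mul_left h10 (by positivity)
    linarith [abs_nonneg C]
  · rintro ⟨C, hC⟩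
    obtain ⟨t, ht⟩ := exists_nat_gt (|C| * 64 + 4)
    have hC0 : (0 : ℝ) ≤ |C| := abs_nonneg C
    have ht4 : (4 : ℝ) < t := by linarith
    have ht4' : 4 < t := by exact_mod_cast ht4
    have hch2 : (2 * t).choose 2 = t * (2 * t - 1) := by
      rw [Nat.choose_two_right, show 2 * t * (2 * t - 1) = 2 * (t * (2 * t - 1)) by ring,
        Nat.mul_div_cancel_left _ (by norm_num)]
    have hch1 : 2 * t.choose 2 = t * (t - 1) := by
      rw [Nat.choose_two_right]
      exact Nat.mul_div_cancel' (Nat.even_mul_pred_self t).two_dvd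
    have hn : 2 ≤ (2 * t).choose 2 := by
      rw [hch2]
      calc 2 ≤ 4 * 1 := by norm_num
        _ ≤ t * (2 * t - 1) := Nat.mul_le_mul (by omega) (by omega)
    have h1 := hC (2 * t) ((2 * t).choose 2) (by omega) hn
    have h2 := key2 t
    have h2' : t.choose 2 * (t - 2) ≤ z3L (2 * t) ((2 * t).choose 2) := le_trans (by omega) h2
    have h3 : ((t.choose 2 * (t - 2) : ℕ) : ℝ) ≤ z3L (2 * t) ((2 * t).choose 2) := by
      exact_mod_cast h2'
    have hn_le : (((2 * t).choose 2 : ℕ) : ℝ) ≤ (2 * t) ^ 2 := by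
      rw [hch2]
      have : t * (2 * t - 1) ≤ (2 * t) ^ 2 := by
        calc t * (2 * t - 1) ≤ (2 * t) * (2 * t) := Nat.mul_le_mul (by omega) (by omega)
          _ = _ := by ring
      exact_mod_cast this
    have hsq : (((2 * t).choose 2 : ℕ) : ℝ) ^ (1 / 2 : ℝ) ≤ 2 * t := by
      rw [← Real.sqrt_eq_rpow]
      calc Real.sqrt _ ≤ Real.sqrt ((2 * t) ^ 2) := Real.sqrt_le_sqrt hn_le
        _ = 2 * t := Real.sqrt_sq (by positivity)
    have h4 : C * (((2 * t : ℕ) : ℝ) * (((2 * t).choose 2 : ℕ) : ℝ) ^ (1 / 2 : ℝ) + (((2 * t).choose 2 : ℕ) : ℝ))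
        ≤ |C| * (8 * t ^ 2) := by
      have hpos : (0 : ℝ) ≤ ((2 * t : ℕ) : ℝ) * (((2 * t).choose 2 : ℕ) : ℝ) ^ (1 / 2 : ℝ) + (((2 * t).choose 2 : ℕ) : ℝ) := by
        positivity
      calc _ ≤ |C| * (((2 * t : ℕ) : ℝ) * (((2 * t).choose 2 : ℕ) : ℝ) ^ (1 / 2 : ℝ) + (((2 * t).choose 2 : ℕ) : ℝ)) :=
            mul_le_mul_of_nonneg_right (le_abs_self C) hpos
        _ ≤ |C| * (8 * t ^ 2) := by
            apply mul_le_mul_of_nonneg_left _ hC0
            push_cast at hsq hn_le ⊢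
            have : (2 * (t : ℝ)) * (((2 * t).choose 2 : ℕ) : ℝ) ^ (1 / 2 : ℝ) ≤ (2 * t) * (2 * t) :=
              mul_le_mul_of_nonneg_left hsq (by positivity)
            nlinarith
    have h5 : (t : ℝ) ^ 3 ≤ 8 * ((t.choose 2 * (t - 2) : ℕ) : ℝ) := by
      have e1 : 2 * (t.choose 2 : ℝ) = t * (t - 1) := by
        have := congrArg (Nat.cast (R := ℝ)) hch1
        push_cast [Nat.cast_sub (show 1 ≤ t by omega)] at this
        exact this
      have e2 : ((t.choose 2 * (t - 2) : ℕ) : ℝ) = (t.choose 2 : ℝ) * (t - 2) := by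
        push_cast [Nat.cast_sub (show 2 ≤ t by omega)]
        ring
      rw [e2]
      have e3 : 8 * ((t.choose 2 : ℝ) * (t - 2)) = 4 * (t * (t - 1)) * (t - 2) := by
        rw [← e1]; ring
      rw [e3]
      nlinarith [mul_pos (by linarith : (0:ℝ) < t) (by linarith : (0:ℝ) < t - 4),
        mul_pos (mul_pos (by linarith : (0:ℝ) < t) (by linarith : (0:ℝ) < t - 4)) (by linarith : (0:ℝ) < t)]
    have h6 : (t : ℝ) ^ 3 ≤ 8 * (|C| * (8 * t ^ 2)) := by
      calc (t : ℝ) ^ 3 ≤ _ := h5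
        _ ≤ 8 * (|C| * (8 * t ^ 2)) := by
          apply mul_le_mul_of_nonneg_left _ (by norm_num)
          exact h3.trans (h1.trans h4)
    have h7 : (t : ℝ) ^ 2 * t ≤ t ^ 2 * (64 * |C|) := by linarith
    have h8 := le_of_mul_le_mul_left h7 (by positivity)
    linarith

end Pool.Agent.Results.MP_10302a_co.BothUnbounded
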